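import Mathlib

/-! Sequential direct limits of abelian groups: sequences that are eventually compatible, modulo
sequences that are eventually zero. -/

namespace Pool.Agent.Helper69.Stab

universe u

section
variable (G : ℕ → Type u) [∀ n, AddCommGroup (G n)] (t : ∀ n, G n →+ G (n + 1))

/-- eventually compatible sequences -/
def EvS : AddSubgroup (∀ n, G n) where
  carrier := {x | ∃ N, ∀ n ≥ N, x (n + 1) = t n (x n)}
  zero_mem' := ⟨0, fun n _ => by simp⟩
  add_mem' := by
    rintro x y ⟨N, hN⟩ ⟨M, hM⟩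
    refine ⟨max N M, fun n hn => ?_⟩
    rw [Pi.add_apply, Pi.add_apply, map_add, hN n (le_of_max_le_left hn),
      hM n (le_of_max_le_right hn)]
  neg_mem' := by
    rintro x ⟨N, hN⟩
    refine ⟨N, fun n hn => ?_⟩
    rw [Pi.neg_apply, Pi.neg_apply, map_neg, hN n hn]

/-- eventually zero sequences -/
def EvZ : AddSubgroup (EvS G t) where
  carrier := {x | ∃ N, ∀ n ≥ N, x.1 n = 0}
  zero_mem' := ⟨0, fun n _ => rfl⟩
  add_mem' := by
    rintro x y ⟨N, hN⟩ ⟨M, hM⟩
    refine ⟨max N M, fun n hn => ?_⟩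
    change x.1 n + y.1 n = 0
    rw [hN n (le_of_max_le_left hn), hM n (le_of_max_le_right hn), add_zero]
  neg_mem' := by
    rintro x ⟨N, hN⟩
    refine ⟨N, fun n hn => ?_⟩
    change - x.1 n = 0
    rw [hN n hn, neg_zero]

/-- the direct limit -/
abbrev SLim : Type u := EvS G t ⧸ EvZ G t

variable {G}

/-- the sequence of an element -/
def sq (n : ℕ) (y : G n) : ∀ m, G m := fun m =>
  Nat.rec (motive := fun m => G m) (if h : n = 0 then cast (congrArg G h) y else 0)
    (fun m prev => if h : n = m + 1 then cast (congrArg G h) y else t m prev) m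

theorem sq_zero' (n : ℕ) (y : G n) :
    sq t n y 0 = if h : n = 0 then cast (congrArg G h) y else 0 := rfl

theorem sq_succ' (n : ℕ) (y : G n) (m : ℕ) :
    sq t n y (m + 1) = if h : n = m + 1 then cast (congrArg G h) y else t m (sq t n y m) := rfl

theorem sq_self (n : ℕ) (y : G n) : sq t n y n = y := by
  rcases n with _ | n
  · rfl
  · rw [sq_succ', dif_pos rfl]
    rfl

theorem sq_succ {n m : ℕ} (h : n ≤ m) (y : G n) : sq t n y (m + 1) = t m (sq t n y m) := by
  rw [sq_succ', dif_neg (by omega)]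

theorem sq_add (n : ℕ) (y z : G n) : sq t n (y + z) = sq t n y + sq t n z := by
  funext m
  rw [Pi.add_apply]
  induction m with
  | zero =>
    rw [sq_zero', sq_zero', sq_zero']
    by_cases h : n = 0
    · subst h
      rfl
    · rw [dif_neg h, dif_neg h, dif_neg h, add_zero]
  | succ m ih =>
    rw [sq_succ', sq_succ', sq_succ']
    by_cases h : n = m + 1
    · subst h
      simp
    · rw [dif_neg h, dif_neg h, dif_neg h, ih, map_add]

theorem sq_mem (n : ℕ) (y : G n) : sq t n y ∈ EvS G t := ⟨n, fun _ hm => sq_succ t hm y⟩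

/-- the class of an element -/
def SLim.of (n : ℕ) : G n →+ SLim G t :=
  AddMonoidHom.mk' (fun y => QuotientAddGroup.mk (s := EvZ G t) ⟨sq t n y, sq_mem t n y⟩)
    (fun y z => by
      rw [← QuotientAddGroup.mk_add]
      congr 1
      exact Subtype.ext (sq_add t n y z))

theorem SLim.mk_eq {x y : EvS G t} (h : ∃ N, ∀ n ≥ N, x.1 n = y.1 n) :
    (QuotientAddGroup.mk x : SLim G t) = QuotientAddGroup.mk y := by
  obtain ⟨N, hN⟩ := h
  rw [QuotientAddGroup.eq]
  refine ⟨N, fun n hn => ?_⟩
  change - x.1 n + y.1 n = 0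
  rw [hN n hn, neg_add_cancel]

theorem SLim.of_next (n : ℕ) (y : G n) : SLim.of t (n + 1) (t n y) = SLim.of t n y := by
  refine SLim.mk_eq t ⟨n + 1, fun m hm => ?_⟩
  change sq t (n + 1) (t n y) m = sq t n y m
  induction m, hm using Nat.le_induction with
  | base => rw [sq_self, sq_succ t le_rfl, sq_self]
  | succ m hm ih => rw [sq_succ t hm, sq_succ t (by omega), ih]

theorem SLim.mk_of {x : EvS G t} {N : ℕ} (hN : ∀ n ≥ N, x.1 (n + 1) = t n (x.1 n)) :
    (QuotientAddGroup.mk x : SLim G t) = SLim.of t N (x.1 N) := by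
  refine SLim.mk_eq t ⟨N, fun m hm => ?_⟩
  change x.1 m = sq t N (x.1 N) m
  induction m, hm using Nat.le_induction with
  | base => rw [sq_self]
  | succ m hm ih => rw [sq_succ t hm, ← ih, hN m hm]

theorem SLim.of_surj (z : SLim G t) (N : ℕ) : ∃ n ≥ N, ∃ y : G n, z = SLim.of t n y := by
  induction z using QuotientAddGroup.induction_on with
  | H x =>
    obtain ⟨M, hM⟩ := x.2
    exact ⟨max N M, le_max_left _ _, _,
      SLim.mk_of t (x := x) (N := max N M) fun n hn => hM n (le_of_max_le_right hn)⟩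

theorem SLim.of_eq_zero {n : ℕ} {y : G n} (h : SLim.of t n y = 0) :
    ∃ m : ℕ, (Nat.rec (motive := fun m => G (n + m)) y (fun m z => t (n + m) z) m) = 0 := by
  have h1 : (⟨sq t n y, sq_mem t n y⟩ : EvS G t) ∈ EvZ G t :=
    (QuotientAddGroup.eq_zero_iff _).1 h
  obtain ⟨N, hN⟩ := h1
  refine ⟨N, ?_⟩
  have h2 : ∀ m : ℕ, (Nat.rec (motive := fun m => G (n + m)) y (fun m z => t (n + m) z) m) =
      sq t n y (n + m) := by
    intro m
    induction m with
    | zero => exact (sq_self t n y).symm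
    | succ m ih =>
      refine Eq.trans ?_ (sq_succ t (Nat.le_add_right n m) y).symm
      rw [← ih]
  rw [h2]
  exact hN (n + N) (Nat.le_add_left _ _)

end

section
variable {G H : ℕ → Type u} [∀ n, AddCommGroup (G n)] [∀ n, AddCommGroup (H n)]
  (t : ∀ n, G n →+ G (n + 1)) (s : ∀ n, H n →+ H (n + 1))

/-- functoriality -/
def SLim.map (a : ∀ n, G n →+ H n) (ha : ∀ n y, a (n + 1) (t n y) = s n (a n y)) :
    SLim G t →+ SLim H s :=
  QuotientAddGroup.map (EvZ G t) (EvZ H s)
    (AddMonoidHom.mk' (fun x => (⟨fun n => a n (x.1 n), by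
        obtain ⟨N, hN⟩ := x.2
        exact ⟨N, fun n hn => by
          change a (n + 1) (x.1 (n + 1)) = s n (a n (x.1 n))
          rw [hN n hn, ha]⟩⟩ : EvS H s))
      (fun x y => Subtype.ext (funext fun n => map_add (a n) (x.1 n) (y.1 n))))
    (by
      rintro x ⟨N, hN⟩
      refine ⟨N, fun n hn => ?_⟩
      change a n (x.1 n) = 0
      rw [hN n hn, map_zero])

theorem SLim.map_of (a : ∀ n, G n →+ H n) (ha : ∀ n y, a (n + 1) (t n y) = s n (a n y))
    (n : ℕ) (y : G n) : SLim.map t s a ha (SLim.of t n y) = SLim.of s n (a n y) := by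
  refine SLim.mk_eq s ⟨n, fun m hm => ?_⟩
  change a m (sq t n y m) = sq s n (a n y) m
  induction m, hm using Nat.le_induction with
  | base => rw [sq_self, sq_self]
  | succ m hm ih => rw [sq_succ t hm, sq_succ s hm, ← ih, ha]

theorem SLim.hom_ext {A : Type*} [AddCommGroup A] {f g : SLim G t →+ A}
    (h : ∀ n y, f (SLim.of t n y) = g (SLim.of t n y)) : f = g := by
  refine AddMonoidHom.ext fun z => ?_
  obtain ⟨n, -, y, rfl⟩ := SLim.of_surj t z 0
  exact h n y

/-- an isomorphism of the systems induces one of the limits -/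
def SLim.congr (a : ∀ n, G n ≃+ H n) (ha : ∀ n y, a (n + 1) (t n y) = s n (a n y)) :
    SLim G t ≃+ SLim H s where
  toFun := SLim.map t s (fun n => (a n).toAddMonoidHom) ha
  invFun := SLim.map s t (fun n => (a n).symm.toAddMonoidHom) (fun n y => by
    change (a (n + 1)).symm (s n y) = t n ((a n).symm y)
    rw [AddEquiv.symm_apply_eq, ha, AddEquiv.apply_symm_apply])
  left_inv z := by
    obtain ⟨n, -, y, rfl⟩ := SLim.of_surj t z 0
    have h1 := SLim.map_of t s (fun n => (a n).toAddMonoidHom) ha n y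
    refine (congrArg _ h1).trans ((SLim.map_of s t _ _ n _).trans ?_)
    exact congrArg (SLim.of t n) ((a n).symm_apply_apply y)
  right_inv z := by
    obtain ⟨n, -, y, rfl⟩ := SLim.of_surj s z 0
    refine (congrArg _ (SLim.map_of s t _ _ n y)).trans ((SLim.map_of t s _ ha n _).trans ?_)
    exact congrArg (SLim.of s n) ((a n).apply_symm_apply y)
  map_add' := map_add _

theorem SLim.congr_of (a : ∀ n, G n ≃+ H n) (ha : ∀ n y, a (n + 1) (t n y) = s n (a n y))
    (n : ℕ) (y : G n) : SLim.congr t s a ha (SLim.of t n y) = SLim.of s n (a n y) :=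
  SLim.map_of t s (fun n => (a n).toAddMonoidHom) ha n y

end

/-! ## The universal property -/

section
variable {G : ℕ → Type u} [∀ n, AddCommGroup (G n)] (t : ∀ n, G n →+ G (n + 1))

/-- `A` is the direct limit of `G` -/
structure IsSeqLim {A : Type u} [AddCommGroup A] (c : ∀ n, G n → A) : Prop where
  add : ∀ n y z, c n (y + z) = c n y + c n z
  next : ∀ n y, c (n + 1) (t n y) = c n y
  surj : ∀ (z : A), ∃ n, ∃ y : G n, z = c n y
  zero : ∀ {n} (y : G n), c n y = 0 →
    ∃ m : ℕ, (Nat.rec (motive := fun m => G (n + m)) y (fun m z => t (n + m) z) m) = 0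

variable {t} {A B : Type u} [AddCommGroup A] [AddCommGroup B]

/-- the iterated transition map -/
def itr (t : ∀ n, G n →+ G (n + 1)) (n : ℕ) (y : G n) (m : ℕ) : G (n + m) :=
  Nat.rec (motive := fun m => G (n + m)) y (fun m z => t (n + m) z) m

omit [AddCommGroup A] in
theorem next_itr {c : ∀ n, G n → A} (h : ∀ n y, c (n + 1) (t n y) = c n y) (n : ℕ) (y : G n)
    (m : ℕ) : c (n + m) (itr t n y m) = c n y := by
  induction m with
  | zero => rfl
  | succ m ih =>
    rw [← ih]
    exact h (n + m) (itr t n y m)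

theorem IsSeqLim.eq_of_eq {c : ∀ n, G n → A} (hc : IsSeqLim t c) {d : ∀ n, G n → B}
    (hd1 : ∀ n y z, d n (y + z) = d n y + d n z) (hd2 : ∀ n y, d (n + 1) (t n y) = d n y)
    {n n' : ℕ} {y : G n} {y' : G n'} (h : c n y = c n' y') : d n y = d n' y' := by
  have key : ∀ (n k : ℕ) (y : G n) (y' : G (n + k)), c n y = c (n + k) y' →
      d n y = d (n + k) y' := by
    intro n k y y' h
    rw [← next_itr hc.next n y k] at h
    rw [← next_itr hd2 n y k]
    have h1 : c (n + k) (itr t n y k - y') = 0 := by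
      have h2 := hc.add (n + k) (itr t n y k - y') y'
      rw [sub_add_cancel, h] at h2
      exact right_eq_add.1 h2
    obtain ⟨m, hm⟩ := hc.zero _ h1
    have h3 := next_itr hd2 (n + k) (itr t n y k - y') m
    have h4 : itr t (n + k) (itr t n y k - y') m = 0 := hm
    have h0 : ∀ i, d i 0 = 0 := fun i => by
      have := hd1 i 0 0
      rw [add_zero] at this
      exact right_eq_add.1 this
    rw [h4, h0] at h3
    have h5 := hd1 (n + k) (itr t n y k - y') y'
    rw [sub_add_cancel, ← h3, zero_add] at h5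
    exact h5
  rcases le_total n n' with hn | hn
  · obtain ⟨k, rfl⟩ := Nat.exists_eq_add_of_le hn
    exact key n k y y' h
  · obtain ⟨k, rfl⟩ := Nat.exists_eq_add_of_le hn
    exact (key n' k y' y h.symm).symm

/-- the homomorphism from a direct limit -/
theorem IsSeqLim.exists_lift {c : ∀ n, G n → A} (hc : IsSeqLim t c) {d : ∀ n, G n → B}
    (hd1 : ∀ n y z, d n (y + z) = d n y + d n z) (hd2 : ∀ n y, d (n + 1) (t n y) = d n y) :
    ∃ F : A →+ B, ∀ n y, F (c n y) = d n y := by
  choose n y hy using hc.surj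
  have h1 : ∀ k z, d (n (c k z)) (y (c k z)) = d k z := fun k z =>
    hc.eq_of_eq hd1 hd2 (hy (c k z)).symm
  refine ⟨AddMonoidHom.mk' (fun a => d (n a) (y a)) fun a b => ?_, fun k z => h1 k z⟩
  -- a common stage
  have h2 : ∃ k, ∃ ya yb : G k, a = c k ya ∧ b = c k yb := by
    rcases le_total (n a) (n b) with hn | hn
    · obtain ⟨k, hk⟩ := Nat.exists_eq_add_of_le hn
      refine ⟨n a + k, itr t (n a) (y a) k, hk ▸ y b, ?_, ?_⟩
      · rw [next_itr hc.next]
        exact hy a
      · have : ∀ (i j : ℕ) (h : i = j) (w : G i), c j (h ▸ w) = c i w := by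
          rintro i _ rfl w
          rfl
        rw [this _ _ hk]
        exact hy b
    · obtain ⟨k, hk⟩ := Nat.exists_eq_add_of_le hn
      refine ⟨n b + k, hk ▸ y a, itr t (n b) (y b) k, ?_, ?_⟩
      · have : ∀ (i j : ℕ) (h : i = j) (w : G i), c j (h ▸ w) = c i w := by
          rintro i _ rfl w
          rfl
        rw [this _ _ hk]
        exact hy a
      · rw [next_itr hc.next]
        exact hy b
  obtain ⟨k, ya, yb, rfl, rfl⟩ := h2
  have h3 : c k ya + c k yb = c k (ya + yb) := (hc.add k ya yb).symm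
  rw [h3, h1, h1, h1, hd1]

theorem IsSeqLim.bijective {c : ∀ n, G n → A} (hc : IsSeqLim t c) {d : ∀ n, G n → B}
    (hd : IsSeqLim t d) {F : A →+ B} (hF : ∀ n y, F (c n y) = d n y) :
    Function.Bijective F := by
  constructor
  · intro a b hab
    obtain ⟨n, y, rfl⟩ := hc.surj a
    obtain ⟨n', y', rfl⟩ := hc.surj b
    rw [hF, hF] at hab
    exact hd.eq_of_eq hc.add hc.next hab
  · intro b
    obtain ⟨n, y, rfl⟩ := hd.surj b
    exact ⟨c n y, hF n y⟩

end

end Pool.Agent.Helper69.Stab
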