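import Pool.Agent.Helper1.Stab.Model

/-! Compact models of the telescopes (I4-i). -/

open CategoryTheory Topology Filter Set Opposite

noncomputable section

namespace Pool.Agent.Helper1.Stab

namespace CM

theorem isClosed_boundary (v : ℕ) : IsClosed (Cube.boundary (Fin v)) := by
  have h : Cube.boundary (Fin v) = ⋃ i : Fin v, {y : Fin v → unitInterval | y i = 0 ∨ y i = 1} := by
    ext y
    simp only [mem_iUnion]
    rfl
  rw [h]
  refine isClosed_iUnion_of_finite fun i => ?_
  exact (isClosed_eq (continuous_apply i) continuous_const).union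
    (isClosed_eq (continuous_apply i) continuous_const)

/-- membership in the base point -/
theorem mk_eq_pt {v : ℕ} {X : Type} [TopologicalSpace X] {u : Fin v → unitInterval} {x : X} :
    (Sph.mk u x : Sph v X) = (Sph v X).pt ↔ u ∈ Cube.boundary (Fin v) := by
  constructor
  · intro h
    let P : Quot (SphRel v X) → Prop := Quot.lift (Sum.elim (fun _ => True)
      (fun y => y.1 ∈ Cube.boundary (Fin v))) (by
        rintro _ _ ⟨u, x, h⟩
        exact (eq_true h).symm)
    have h1 : P (Sph.mk u x : Sph v X) = P (Sph v X).pt := congrArg P h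
    exact h1.mpr trivial
  · intro h
    exact (Quot.sound (SphRel.bd u x h)).symm

theorem mk_eq_mk {v : ℕ} {X : Type} [TopologicalSpace X] {u u' : Fin v → unitInterval} {x x' : X}
    (hu : u ∉ Cube.boundary (Fin v)) (h : (Sph.mk u' x' : Sph v X) = Sph.mk u x) :
    u' = u ∧ x' = x := by
  let P : Quot (SphRel v X) → Prop := Quot.lift (Sum.elim (fun _ => False)
    (fun y => y.1 = u ∧ y.2 = x)) (by
      rintro _ _ ⟨w, z, h⟩
      refine (eq_false ?_).symm
      rintro ⟨h1, -⟩
      exact hu (h1 ▸ h))
  have h1 : P (Sph.mk u' x' : Sph v X) = P (Sph.mk u x : Sph v X) := congrArg P h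
  exact h1.mpr ⟨rfl, rfl⟩

theorem isClosed_sph {v : ℕ} {X : Type} [TopologicalSpace X] (A : Set (Sph v X))
    (h : IsClosed {y : (Fin v → unitInterval) × X | (Sph.mk y.1 y.2 : Sph v X) ∈ A}) :
    IsClosed A := by
  have hqm : IsQuotientMap (Quot.mk (SphRel v X)) := isQuotientMap_quot_mk
  refine hqm.isClosed_preimage.1 ?_
  rw [isClosed_sum_iff]
  exact ⟨isClosed_discrete _, h⟩

theorem t1_sph (v : ℕ) (X : Type) [TopologicalSpace X] [T1Space X] : T1Space (Sph v X) := by
  have hpt : IsClosed ({(Sph v X).pt} : Set (Sph v X)) := by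
    refine isClosed_sph _ ?_
    have : {y : (Fin v → unitInterval) × X | (Sph.mk y.1 y.2 : Sph v X) ∈
        ({(Sph v X).pt} : Set (Sph v X))} = Prod.fst ⁻¹' Cube.boundary (Fin v) := by
      ext y
      exact mk_eq_pt
    rw [this]
    exact (isClosed_boundary v).preimage continuous_fst
  refine ⟨fun y => ?_⟩
  induction y using Quot.ind with | _ y => ?_
  rcases y with _ | ⟨u, x⟩
  · exact hpt
  · by_cases hu : u ∈ Cube.boundary (Fin v)
    · have h1 : (Quot.mk (SphRel v X) (Sum.inr (u, x)) : Sph v X) = (Sph v X).pt := mk_eq_pt.2 hu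
      rw [h1]
      exact hpt
    · refine isClosed_sph _ ?_
      have : {y : (Fin v → unitInterval) × X | (Sph.mk y.1 y.2 : Sph v X) ∈
          ({Quot.mk (SphRel v X) (Sum.inr (u, x))} : Set (Sph v X))} = {(u, x)} := by
        ext y
        constructor
        · intro h
          obtain ⟨h1, h2⟩ := mk_eq_mk hu h
          exact Prod.ext h1 h2
        · rintro rfl
          rfl
      exact this ▸ isClosed_singleton

end CM

/-- (I4-i) compact models of the telescopes -/
theorem exists_compactModel69 {D : Set ℂ} (hD : D = Set.univ ∨ D = {1}) {k d : ℕ} (hd : Even d)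
    (hd0 : 0 < d) (f : GenLoop (Fin d) (Gr D k) (Gr.pt D k)) :
    ∃ (G : Prespectrum) (_ : ∀ j : ℕ, ∃ (K : LC) (_ : IsTest K) (e : G.sp (2 * j) ≃ₜ OnePoint K),
      e (G.sp (2 * j)).pt = OnePoint.infty) (_ : ∀ n, T1Space (G.sp n))
      (w : G ⟶ tele (mulMap f)), stableEquiv w := by
  refine ⟨model f, fun j => ?_, fun n => ?_, modelInc f, stableEquiv_modelInc hD hd0 f⟩
  · let L := levelsModel hD hd0 f
    refine ⟨L.K j, L.test j, ((model f).uppCast j 0).symm.trans (L.e j), ?_⟩
    change L.e j (((model f).uppCast j 0).symm ((model f).sp (2 * j + 0)).pt) = _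
    rw [← (model f).uppCast_pt j 0, Homeomorph.symm_apply_apply]
    exact L.e_pt j
  · have := t2_BG hD
    have h1 : T1Space (Sph (lev d n) (BG D)) := CM.t1_sph _ _
    have h2 : ∀ S : Set (Sph (lev d n) (BG D)), T1Space S := fun S => inferInstance
    exact h2 (modelSet f n)

end Pool.Agent.Helper1.Stab
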